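import Mathlib

namespace Pool.Agent.Results.MP_b4ed43_an.No

open Filter Finset MeasureTheory AddCircle

/-- the block end points -/
noncomputable def lam (r : ℕ → ℝ) : ℕ → ℕ
  | 0 => 0
  | s + 1 => sInf {m | 2 ^ lam r s ≤ r m}

/-- the block sum of squares, with values in the extended nonnegative reals -/
noncomputable def Phi (r : ℕ → ℝ) (g : C(AddCircle (1 : ℝ), ℂ)) : ENNReal :=
  ∑' s, ENNReal.ofReal ((∑ k ∈ Ico (lam r s) (lam r (s + 1)), ‖fourierCoeff g (2 ^ k)‖) ^ 2)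

theorem int {E : Type} [NormedAddCommGroup E] {f : AddCircle (1 : ℝ) → E} (h : Continuous f) :
    Integrable f haarAddCircle :=
  h.integrable_of_hasCompactSupport (HasCompactSupport.of_compactSpace f)

/-- the coefficient functional -/
noncomputable def co (n : ℤ) : C(AddCircle (1 : ℝ), ℂ) →ₗ[ℂ] ℂ where
  toFun f := fourierCoeff f n
  map_add' f g := congrFun (fourierCoeff.add (int f.continuous) (int g.continuous)) n
  map_smul' c f := fourierCoeff.const_smul f c n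

/-- trigonometric polynomials with spectrum in A -/
noncomputable def V (A : Set ℤ) : Submodule ℂ C(AddCircle (1 : ℝ), ℂ) :=
  Submodule.span ℂ (fourier '' A)

theorem V_mono {A B : Set ℤ} (h : ∀ n ∈ A, n ∈ B) : V A ≤ V B :=
  Submodule.span_mono (Set.image_mono h)

theorem co_f (n m : ℤ) : co n (fourier m) = if n = m then 1 else 0 := by
  simp [co, fourierCoeff_fourier, Pi.single_apply]

theorem co_V {A : Set ℤ} {f : C(AddCircle (1 : ℝ), ℂ)} (h : f ∈ V A) {n : ℤ} (hn : n ∉ A) :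
    co n f = 0 := by
  refine (Submodule.span_le (p := LinearMap.ker (co n))).2 ?_ h
  rintro _ ⟨m, hm, rfl⟩
  exact (co_f n m).trans (if_neg fun h : n = m => hn (h ▸ hm))

theorem mul_V {A B : Set ℤ} {f : C(AddCircle (1 : ℝ), ℂ)} (h : f ∈ V A) {m : ℤ}
    (hm : ∀ n ∈ A, m + n ∈ B) : fourier m * f ∈ V B := by
  refine (Submodule.span_le (p := (V B).comap (LinearMap.mulLeft ℂ (fourier m)))).2 ?_ h
  rintro _ ⟨n, hn, rfl⟩
  exact Submodule.subset_span ⟨m + n, hm n hn, ContinuousMap.ext fun _ => fourier_add⟩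

theorem deg {f : C(AddCircle (1 : ℝ), ℂ)} (h : f ∈ fourierSubalgebra) :
    ∃ D : ℝ, f ∈ V {n | |(n : ℝ)| ≤ D} := by
  replace h : f ∈ Submodule.span ℂ (Set.range fourier) := fourierSubalgebra_coe ▸ h
  induction h using Submodule.span_induction with
  | mem _ h => exact h.elim fun n h => ⟨_, Submodule.subset_span ⟨n, le_refl |(n : ℝ)|, h⟩⟩
  | zero => exact ⟨0, zero_mem _⟩
  | add f g _ _ h1 h2 =>
    obtain ⟨D, h1⟩ := h1
    obtain ⟨E, h2⟩ := h2
    refine ⟨max D E, add_mem (V_mono (fun n hn => ?_) h1) (V_mono (fun n hn => ?_) h2)⟩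
    · exact le_trans (b := D) hn (le_max_left _ _)
    · exact le_trans (b := E) hn (le_max_right _ _)
  | smul c f _ h => exact h.imp fun _ h => Submodule.smul_mem _ c h

theorem co_mul (m : ℤ) (f : C(AddCircle (1 : ℝ), ℂ)) : co m (fourier m * f) = co 0 f := by
  refine integral_congr_ae (.of_forall fun t => ?_)
  simp only [ContinuousMap.mul_apply, smul_eq_mul, ← mul_assoc, ← fourier_add, neg_add_cancel,
    neg_zero]

theorem co_re (f : C(AddCircle (1 : ℝ), ℂ)) : (co 0 f).re = ∫ t, (f t).re ∂haarAddCircle := by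
  simpa [co, fourierCoeff] using (integral_re (int f.continuous)).symm

theorem sep {k l : ℕ} (h : |((2 ^ l : ℤ) : ℝ) - 2 ^ k| < 2 ^ k / 2 ^ 10) : l = k := by
  push_cast at h
  obtain ⟨h1, h2⟩ := abs_lt.1 h
  have h0 : (0 : ℝ) < 2 ^ k := by positivity
  have h3 : (2 : ℝ) ^ l < 2 ^ (k + 1) := by rw [pow_succ]; linarith
  have h4 : (2 : ℝ) ^ k < 2 ^ (l + 1) := by rw [pow_succ]; linarith
  rw [pow_lt_pow_iff_right₀ one_lt_two] at h3 h4
  omega

theorem main (r : ℕ → ℝ) (L : ℕ → ℕ) (hr : ∀ k, r k < 2 ^ k / 2 ^ 10) (hL : Monotone L)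
    (h : ∀ (D : ℝ) (N s₀ : ℕ), ∃ s ≥ s₀, L s + N ≤ L (s + 1) ∧ ∀ k ≥ L s, D ≤ r k) (S : ℕ)
    (hS : 0 < S) (j : ℕ) (hj : j ≤ S) : ∃ (f W : C(AddCircle (1 : ℝ), ℂ)) (s : ℕ),
      W ∈ fourierSubalgebra ∧ f ∈ V {n | ∃ k < L s, |(n : ℝ) - 2 ^ k| ≤ r k} ∧
      (∀ t, ∃ x : ℝ, 0 ≤ x ∧ x ≤ 1 ∧ W t = x ∧ ‖f t‖ ≤ j / S + 2 * (1 - x)) ∧
      1 - j / (2 * S) ≤ (co 0 W).re ∧
      (j / 4 : ℝ) ≤ ∑ i ∈ range s, (∑ k ∈ Ico (L i) (L (i + 1)), ‖co (2 ^ k) f‖) ^ 2 := by
  have S0 : (1 : ℝ) ≤ S := by exact_mod_cast hS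
  induction j with
  | zero => exact ⟨0, 1, 0, one_mem _, zero_mem _, fun t => ⟨1, by simp⟩, by simp [co_re], by simp⟩
  | succ j ih =>
  obtain ⟨f, W, s₀, h1, h2, h3, h4, h5⟩ := ih (by omega)
  clear ih
  obtain ⟨D, hD⟩ := deg h1
  obtain ⟨s, h6, h7, h8⟩ := h D (2 * S ^ 3) s₀
  set K := Ico (L s) (L s + 2 * S ^ 3) with hK
  have k0 : (#K : ℂ) = 2 * S ^ 3 := by simp [hK]
  have S1 : (S : ℂ) ≠ 0 := by exact_mod_cast hS.ne'
  set d : C(AddCircle (1 : ℝ), ℂ) := (2 * S ^ 3 : ℂ)⁻¹ • ∑ k ∈ K, fourier (2 ^ k) with hd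
  have d0 : d ∈ fourierSubalgebra := SMulMemClass.smul_mem _ (sum_mem fun k _ =>
    Algebra.subset_adjoin ⟨_, rfl⟩)
  have d1 : ∀ t, ‖d t‖ ≤ 1 := fun t => by
    simp only [hd, ContinuousMap.smul_apply, ContinuousMap.sum_apply, norm_smul, ← k0]
    grw [norm_sum_le]
    simp [fourier_apply, inv_mul_le_one]
  have d2 : ∀ F ∈ V {n | |(n : ℝ)| ≤ D}, ∀ l : ℕ,
      co (2 ^ l) (d * F) = if l ∈ K then (2 * S ^ 3 : ℂ)⁻¹ * co 0 F else 0 := fun F hF l => by
    rw [hd, smul_mul_assoc, sum_mul, map_smul, map_sum, sum_congr rfl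
      (g := fun k => if k = l then co 0 F else 0) fun k hk => ?_, sum_ite_eq', smul_eq_mul, mul_ite,
      mul_zero]
    split_ifs with h
    · rw [h, co_mul]
    · refine co_V (mul_V hF (B := {n | |(n : ℝ) - 2 ^ k| ≤ D}) fun n hn => by simpa using hn)
        fun h' => h (sep (h'.trans_lt ((h8 k (mem_Ico.1 hk).1).trans_lt (hr k)))).symm
  have d3 : (co 0 (d * star d)).re = (2 * S ^ 3 : ℝ)⁻¹ := by
    have : ∀ k ∈ K, co 0 (fourier (2 ^ k) * star d) = (2 * S ^ 3 : ℂ)⁻¹ := fun k hk => by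
      have : fourier (2 ^ k) * star d =
          (2 * S ^ 3 : ℂ)⁻¹ • ∑ l ∈ K, fourier (2 ^ k + -2 ^ l) := by
        ext t
        simp [hd, fourier_add, fourier_neg, mul_sum, -fourier_apply, mul_left_comm]
      rw [this, map_smul, map_sum, sum_congr rfl (g := fun l => if l = k then 1 else 0)
        fun l _ => by simp [co_f, eq_comm (a := (0 : ℤ)), add_neg_eq_zero, eq_comm (a := k)], sum_ite_eq', if_pos hk, smul_eq_mul,
        mul_one]
    nth_rw 1 [hd]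
    rw [smul_mul_assoc, sum_mul, map_smul, map_sum, sum_congr rfl this, sum_const, nsmul_eq_mul, k0,
      mul_inv_cancel₀ (by simpa using hS.ne'), smul_eq_mul, mul_one,
      ← Complex.ofReal_re (2 * S ^ 3 : ℝ)⁻¹]
    push_cast
    rfl
  have d4 : ∀ t, (d * star d) t = (‖d t‖ ^ 2 : ℝ) := fun t => by simp [Complex.mul_conj']
  have d5 : ∀ t, 0 ≤ 1 - ‖d t‖ ^ 2 := fun t => by nlinarith [d1 t, norm_nonneg (d t)]
  have d6 : ∀ t, (W * (1 - d * star d) ^ S ^ 2) t = W t * ((1 - ‖d t‖ ^ 2) ^ S ^ 2 : ℝ) :=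
    fun t => by simp [Complex.mul_conj']
  refine ⟨f + d * W, W * (1 - d * star d) ^ S ^ 2, s + 1,
    mul_mem h1 (pow_mem (sub_mem (one_mem _) (mul_mem d0 (star_mem d0))) _),
    add_mem (V_mono (fun n hn => ?_) h2) ?_, fun t => ?_, ?_, ?_⟩
  · obtain ⟨k, hk, h⟩ := hn
    exact ⟨k, hk.trans_le (hL (by omega)), h⟩
  · rw [hd, smul_mul_assoc, sum_mul]
    exact Submodule.smul_mem _ _ (sum_mem fun k hk => mul_V hD fun n hn =>
      ⟨k, (mem_Ico.1 hk).2.trans_le h7, by simpa using hn.trans (h8 k (mem_Ico.1 hk).1)⟩)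
  · obtain ⟨x, x0, x1, x2, x3⟩ := h3 t
    have y0 := pow_nonneg (d5 t) (S ^ 2)
    have y1 : (1 - ‖d t‖ ^ 2) ^ S ^ 2 ≤ 1 := pow_le_one₀ (d5 t) (by nlinarith)
    refine ⟨x * (1 - ‖d t‖ ^ 2) ^ S ^ 2, mul_nonneg x0 y0, mul_le_one₀ x1 y0 y1,
      by rw [d6, x2, Complex.ofReal_mul], ?_⟩
    have y2 : ‖d t‖ ≤ 1 / S + 2 * (1 - (1 - ‖d t‖ ^ 2) ^ S ^ 2) := by
      rcases le_total ‖d t‖ (1 / S) with h | h
      · linarith
      · rw [div_le_iff₀ (by linarith)] at h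
        have h9 := one_add_mul_le_pow (a := ‖d t‖ ^ 2) (by nlinarith) (S ^ 2)
        have h10 : (1 - ‖d t‖ ^ 2) ^ S ^ 2 * (1 + ‖d t‖ ^ 2) ^ S ^ 2 ≤ 1 := by
          rw [← mul_pow]
          exact pow_le_one₀ (mul_nonneg (d5 t) (by positivity)) (by nlinarith [sq_nonneg (‖d t‖ ^ 2)])
        push_cast at h9
        have : (0 : ℝ) ≤ 1 / S := by positivity
        nlinarith [d1 t, mul_le_mul_of_nonneg_left h9 y0,
          mul_le_mul_of_nonneg_left (one_le_pow₀ h (n := 2)) y0]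
    rw [ContinuousMap.add_apply, ContinuousMap.mul_apply, x2]
    grw [norm_add_le, x3, norm_mul, Complex.norm_of_nonneg x0, y2]
    push_cast
    rw [add_div]
    nlinarith [mul_le_of_le_one_right (by positivity : (0 : ℝ) ≤ 1 / S) x1]
  · have : (co 0 (W - (S ^ 2 : ℂ) • (d * star d))).re ≤
        (co 0 (W * (1 - d * star d) ^ S ^ 2)).re := by
      rw [co_re, co_re]
      refine integral_mono (int (by fun_prop)) (int (by fun_prop)) fun t => ?_
      obtain ⟨x, x0, x1, x2, -⟩ := h3 t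
      have h9 := one_add_mul_le_pow (a := -‖d t‖ ^ 2) (by linarith [d5 t]) (S ^ 2)
      simp only [d6, ContinuousMap.sub_apply, ContinuousMap.smul_apply, d4, x2, smul_eq_mul]
      norm_cast
      push_cast at h9 ⊢
      rw [← sub_eq_add_neg] at h9
      nlinarith [mul_le_mul_of_nonneg_left h9 x0,
        mul_le_of_le_one_left (by positivity : (0 : ℝ) ≤ S ^ 2 * ‖d t‖ ^ 2) x1]
    rw [map_sub, map_smul, Complex.sub_re, smul_eq_mul, ← Complex.ofReal_natCast,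
      ← Complex.ofReal_pow, Complex.re_ofReal_mul, d3] at this
    refine le_trans ?_ this
    rw [show (S ^ 2 : ℝ) * (2 * S ^ 3 : ℝ)⁻¹ = 1 / (2 * S) by field_simp]
    push_cast
    rw [add_div]
    linarith
  · rw [sum_range_succ]
    push_cast
    rw [add_div]
    refine add_le_add (h5.trans ((sum_congr rfl fun i hi => ?_).trans_le
      (sum_le_sum_of_subset_of_nonneg (range_subset_range.2 h6) fun _ _ _ => sq_nonneg _))) ?_
    · refine congrArg (· ^ 2) (sum_congr rfl fun k hk => ?_)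
      have := hL (show i + 1 ≤ s from (mem_range.1 hi).trans_le h6)
      rw [map_add, d2 W hD, if_neg fun h => by grind, add_zero]
    · rw [show (1 / 4 : ℝ) = (1 / 2) ^ 2 by norm_num]
      refine pow_le_pow_left₀ (by norm_num) (le_trans ?_ (sum_le_sum_of_subset_of_nonneg
        (Ico_subset_Ico_right h7) fun _ _ _ => norm_nonneg _)) 2
      rw [sum_congr rfl (g := fun _ => ‖(2 * S ^ 3 : ℂ)⁻¹ * co 0 W‖) fun k hk => ?_, sum_const,
        nsmul_eq_mul, ← hK, ← k0, norm_mul, norm_inv, Complex.norm_natCast, mul_inv_cancel_left₀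
          (by simpa [hK] using hS.ne')]
      · refine le_trans ?_ (h4.trans (Complex.re_le_norm _))
        have : (j : ℝ) ≤ S := by exact_mod_cast (by omega : j ≤ S)
        have : (j : ℝ) / (2 * S) ≤ 1 / 2 := by rw [div_le_iff₀ (by positivity)]; linarith
        linarith
      · rw [map_add, d2 W hD, if_pos hk, co_V h2, zero_add]
        rintro ⟨l, hl, h⟩
        have := sep (h.trans_lt (hr l))
        have := hL h6
        grind

theorem result : ∃ r : ℕ → ℝ, StrictMono r ∧ (∀ k, 0 < r k ∧ r k < 2 ^ k / 2 ^ 10) ∧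
    Tendsto r atTop atTop ∧ ∀ C : ℝ, ∃ f : C(AddCircle (1 : ℝ), ℂ),
      (∀ n : ℤ, (¬∃ k, 2 ^ k - r k ≤ n ∧ n ≤ 2 ^ k + r k) → fourierCoeff f n = 0) ∧
      ENNReal.ofReal (C * ‖f‖ ^ 2) < Phi r f := by
  set r : ℕ → ℝ := fun k => (k + 1) / 2 ^ 11 with hr
  have r1 : ∀ k, r k < 2 ^ k / 2 ^ 10 := fun k => by
    have : (k + 1 : ℝ) ≤ 2 ^ k := by exact_mod_cast Nat.lt_two_pow_self
    have : (0 : ℝ) < 2 ^ k := by positivity
    simp only [hr]
    linarith
  have l1 : ∀ s, 2 * lam r s + 1 ≤ lam r (s + 1) := fun s => by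
    have : sInf {m | 2 ^ lam r s ≤ r m} ∈ {m | 2 ^ lam r s ≤ r m} :=
      Nat.sInf_mem ⟨2 ^ (lam r s + 11), by simp only [hr, Set.mem_ofPred_eq, pow_add]; push_cast; linarith⟩
    replace this : (2 : ℝ) ^ lam r s ≤ (lam r (s + 1) + 1) / 2 ^ 11 := this
    rw [le_div_iff₀ (by positivity)] at this
    have h1 : 2 ^ lam r s * 2 ^ 11 ≤ lam r (s + 1) + 1 := by exact_mod_cast this
    have := Nat.lt_two_pow_self (n := lam r s)
    omega
  have l2 : ∀ s, s ≤ lam r s := fun s => by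
    induction s with
    | zero => exact Nat.zero_le _
    | succ s ih => linarith [l1 s]
  refine ⟨r, fun a b h => by simp only [hr]; gcongr, fun k => ⟨by positivity, r1 k⟩,
    (tendsto_atTop_add_const_right _ _ tendsto_natCast_atTop_atTop).atTop_div_const (by positivity),
    fun C => ?_⟩
  obtain ⟨S, hS⟩ := exists_nat_gt (36 * |C|)
  have S0 : (0 : ℝ) < S := lt_of_le_of_lt (by positivity) hS
  obtain ⟨f, W, s, -, h1, h2, -, h3⟩ := main r (lam r) r1
    (monotone_nat_of_le_succ fun s => by linarith [l1 s]) (fun D N s₀ => by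
      obtain ⟨M, hM⟩ := exists_nat_ge (D * 2 ^ 11)
      refine ⟨s₀ + N + M, by omega, by linarith [l1 (s₀ + N + M), l2 (s₀ + N + M)], fun k hk => ?_⟩
      have : (M : ℝ) ≤ k := by exact_mod_cast (by linarith [l2 (s₀ + N + M)] : M ≤ k)
      simp only [hr]
      linarith) S (by exact_mod_cast S0) S le_rfl
  refine ⟨f, fun n hn => co_V h1 fun ⟨k, _, h⟩ =>
    hn ⟨k, by linarith [abs_le.1 h], by linarith [abs_le.1 h]⟩, ?_⟩
  refine lt_of_lt_of_le ?_ (ENNReal.sum_le_tsum (range s))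
  rw [← ENNReal.ofReal_sum_of_nonneg fun _ _ => sq_nonneg _]
  refine (ENNReal.ofReal_lt_ofReal_iff (lt_of_lt_of_le (by positivity) h3)).2 (lt_of_lt_of_le ?_ h3)
  have h4 : ‖f‖ ≤ 3 := (ContinuousMap.norm_le _ (by norm_num)).2 fun t => by
    obtain ⟨x, x0, -, -, h⟩ := h2 t
    rw [div_self S0.ne'] at h
    linarith
  have h5 : ‖f‖ ^ 2 ≤ 3 ^ 2 := by gcongr
  nlinarith [mul_le_mul (le_abs_self C) h5 (sq_nonneg _) (abs_nonneg C)]

end Pool.Agent.Results.MP_b4ed43_an.No
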